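import Pool.Agent.H211.HY.Stm4
import Pool.Agent.H922.HY211.NORM
import Pool.Agent.H747.HY211.CHO

/-!
# Normalisation: infinity is attracted by an attracting cycle which does not contain it (helper376)
-/

set_option autoImplicit false

open Topology Filter Metric Set MeasureTheory Polynomial

namespace Pool.Agent.H376.HY211

open Pool.Agent.H790R3.RB Pool.Agent.H790R3.RB.ALL Pool.Agent.H211.HY Pool.Agent.H922.HY211

/-! ### The basin of an attracting periodic point -/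

/-- a vector transversal to `z` -/
noncomputable def nv (z : ℂ × ℂ) : ℂ × ℂ := (-(starRingEnd ℂ) z.2, (starRingEnd ℂ) z.1)

theorem cr_nv (z : ℂ × ℂ) : cr z (nv z) = ((‖z.1‖ ^ 2 + ‖z.2‖ ^ 2 : ℝ) : ℂ) := by
  have h1 := Complex.mul_conj' z.1
  have h2 := Complex.mul_conj' z.2
  unfold cr nv
  push_cast
  linear_combination h1 + h2

theorem cr_nv_ne {z : ℂ × ℂ} (hz : z ≠ 0) : cr z (nv z) ≠ 0 := by
  rw [cr_nv]
  have h1 : 0 < N2 z := N2_pos hz
  unfold N2 at h1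
  exact_mod_cast h1.ne'

/-- iterates of a local contraction -/
theorem iter_small {φ : ℂ → ℂ} {δ μ : ℝ} (hμ0 : 0 ≤ μ) (hμ1 : μ < 1)
    (hφ : ∀ ζ, ‖ζ‖ < δ → ‖φ ζ‖ ≤ μ * ‖ζ‖) {ζ : ℂ} (hζ : ‖ζ‖ < δ) (k : ℕ) :
    ‖φ^[k] ζ‖ ≤ μ ^ k * ‖ζ‖ ∧ ‖φ^[k] ζ‖ < δ := by
  induction k with
  | zero => exact ⟨by simp, hζ⟩
  | succ k ih =>
    rw [Function.iterate_succ_apply']
    have h1 := hφ _ ih.2
    have h2 : ‖φ (φ^[k] ζ)‖ ≤ μ ^ (k + 1) * ‖ζ‖ := by
      refine h1.trans ?_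
      rw [pow_succ', mul_assoc]
      exact mul_le_mul_of_nonneg_left ih.1 hμ0
    refine ⟨h2, lt_of_le_of_lt h1 ?_⟩
    have h3 : μ * ‖φ^[k] ζ‖ ≤ 1 * ‖φ^[k] ζ‖ := mul_le_mul_of_nonneg_right hμ1.le (norm_nonneg _)
    linarith [ih.2]

/-- coordinates in the basis `z, w` -/
theorem coords {z w : ℂ × ℂ} (hΔ : cr z w ≠ 0) {p : ℂ × ℂ} (hp : cr p w ≠ 0) :
    p = (cr p w / cr z w) • (z + (cr z p / cr p w) • w) := by
  have e1 : cr z w * p.1 = cr p w * z.1 + cr z p * w.1 := by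
    unfold cr
    ring
  have e2 : cr z w * p.2 = cr p w * z.2 + cr z p * w.2 := by
    unfold cr
    ring
  refine Prod.ext ?_ ?_
  · simp only [Prod.smul_fst, Prod.fst_add, smul_eq_mul]
    field_simp
    linear_combination e1
  · simp only [Prod.smul_snd, Prod.snd_add, smul_eq_mul]
    field_simp
    linear_combination e2

theorem hasDerivAt_cr_left {G : ℂ → ℂ × ℂ} {G' : ℂ × ℂ} {t : ℂ} (hG : HasDerivAt G G' t)
    (w : ℂ × ℂ) : HasDerivAt (fun s => cr w (G s)) (cr w G') t := by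
  have h1 : HasDerivAt (fun s => (G s).1) G'.1 t := hG.fst
  have h2 : HasDerivAt (fun s => (G s).2) G'.2 t := hG.snd
  exact (h2.const_mul w.1).sub (h1.const_mul w.2)

theorem hasDerivAt_cr_right {G : ℂ → ℂ × ℂ} {G' : ℂ × ℂ} {t : ℂ} (hG : HasDerivAt G G' t)
    (w : ℂ × ℂ) : HasDerivAt (fun s => cr (G s) w) (cr G' w) t := by
  have h1 : HasDerivAt (fun s => (G s).1) G'.1 t := hG.fst
  have h2 : HasDerivAt (fun s => (G s).2) G'.2 t := hG.snd
  exact (h1.mul_const w.2).sub (h2.mul_const w.1)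

/-- the disc of attraction -/
theorem basin {d : ℕ} {x : CV d} (hd : 2 ≤ d) (hx : ND x) {n : ℕ} {z : ℂ × ℂ} (hz : z ≠ 0)
    (hcyc : cr ((hF x)^[n] z) z = 0) (hs : sdn x n z < 1) :
    ∃ δ > (0 : ℝ), ∀ ζ : ℂ, ‖ζ‖ < δ →
      Tendsto (fun k : ℕ => cho ((hF x)^[n * k] (z + ζ • nv z)) z) atTop (𝓝 0) := by
  obtain ⟨w, hw⟩ : ∃ w, w = nv z := ⟨_, rfl⟩
  rw [← hw]
  have hΔ : cr z w ≠ 0 := by
    rw [hw]
    exact cr_nv_ne hz
  have hFz : (hF x)^[n] z ≠ 0 := hx.iter_ne n hz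
  obtain ⟨lam, hlam, hFl⟩ := (cr_eq_zero_iff hFz hz).1 hcyc
  -- the curve
  obtain ⟨h, hh⟩ : ∃ h : ℂ → ℂ × ℂ, h = fun ζ => z + ζ • w := ⟨_, rfl⟩
  have hh0 : h 0 = z := by
    rw [hh]
    simp
  have hhd : HasDerivAt h w 0 := by
    rw [hh]
    have h1 : HasDerivAt (fun ζ : ℂ => ζ • w) ((1 : ℂ) • w) 0 := (hasDerivAt_id (0 : ℂ)).smul_const w
    rw [one_smul] at h1
    exact h1.const_add z
  obtain ⟨G, hG⟩ : ∃ G : ℂ → ℂ × ℂ, G = fun ζ => (hF x)^[n] (h ζ) := ⟨_, rfl⟩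
  have hGd : DifferentiableAt ℂ G 0 := by
    rw [hG]
    exact (Pool.Agent.H747.HY211.CHO.differentiable_iter x n (h 0)).comp (0 : ℂ)
      hhd.differentiableAt
  have hG0 : G 0 = lam • z := by
    rw [hG]
    simp only [hh0]
    exact hFl
  have hGc : cr (G 0) w ≠ 0 := by
    rw [hG0, cr_smul_left]
    exact mul_ne_zero hlam hΔ
  obtain ⟨φ, hφ⟩ : ∃ φ : ℂ → ℂ, φ = fun ζ => cr z (G ζ) / cr (G ζ) w := ⟨_, rfl⟩
  have hφ0 : φ 0 = 0 := by
    rw [hφ]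
    simp only [hG0, cr_smul_right, cr_self, mul_zero, zero_div]
  have hφd : HasDerivAt φ (cr z (deriv G 0) / cr (G 0) w) 0 := by
    rw [hφ]
    have h1 := (hasDerivAt_cr_left hGd.hasDerivAt z).div (hasDerivAt_cr_right hGd.hasDerivAt w) hGc
    have h2 : cr z (G 0) = 0 := by rw [hG0, cr_smul_right, cr_self, mul_zero]
    have h3 : (cr z (deriv G 0) * cr (G 0) w - cr z (G 0) * cr (deriv G 0) w) / cr (G 0) w ^ 2 =
        cr z (deriv G 0) / cr (G 0) w := by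
      rw [h2, zero_mul, sub_zero]
      field_simp
    rw [h3] at h1
    exact h1
  -- the modulus of the derivative
  have hmod : ‖cr z (deriv G 0) / cr (G 0) w‖ = sdn x n z := by
    have h1 := Pool.Agent.H747.HY211.CHO.spd_iter x hd hx h 0 n hhd.differentiableAt
      (by rw [hh0]; exact hz)
    rw [hh0, ← hG] at h1
    unfold spd at h1
    rw [hhd.deriv, hh0, hG0] at h1
    have e1 : ‖cr (deriv G 0) (lam • z)‖ = ‖lam‖ * ‖cr z (deriv G 0)‖ := by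
      rw [cr_smul_right, norm_mul, cr_comm, norm_neg]
    have e2 : ‖cr w z‖ = ‖cr z w‖ := by rw [cr_comm, norm_neg]
    rw [e1, e2, Pool.Agent.H747.HY211.CHO.N2_smul] at h1
    have p1 : 0 < ‖lam‖ := norm_pos_iff.2 hlam
    have p2 : 0 < N2 z := N2_pos hz
    have p3 : 0 < ‖cr z w‖ := norm_pos_iff.2 hΔ
    rw [norm_div, hG0, cr_smul_left, norm_mul]
    rw [div_eq_iff (by positivity)] at h1 ⊢
    have h2 : ‖lam‖ * ‖cr z (deriv G 0)‖ = sdn x n z * (‖cr z w‖) * ‖lam‖ ^ 2 := by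
      rw [h1]
      field_simp
    have h3 : ‖lam‖ * ‖cr z (deriv G 0)‖ = ‖lam‖ * (sdn x n z * (‖lam‖ * ‖cr z w‖)) := by
      rw [h2]
      ring
    exact mul_left_cancel₀ p1.ne' h3
  obtain ⟨μ, hμ1, hμ2⟩ := exists_between hs
  have hμ0 : 0 ≤ μ := by
    rw [← hmod] at hμ1
    exact (norm_nonneg _).trans hμ1.le
  have hev : ∀ᶠ ζ in 𝓝 (0 : ℂ), ‖φ ζ‖ ≤ μ * ‖ζ‖ ∧ cr (G ζ) w ≠ 0 := by
    have h1 := hφd.isLittleO.def (sub_pos.2 hμ1)
    have h2 : ∀ᶠ ζ in 𝓝 (0 : ℂ), cr (G ζ) w ≠ 0 :=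
      (hasDerivAt_cr_right hGd.hasDerivAt w).continuousAt.eventually_ne hGc
    filter_upwards [h1, h2] with ζ h3 h4
    refine ⟨?_, h4⟩
    rw [hφ0, sub_zero, sub_zero, smul_eq_mul] at h3
    have h5 : ‖ζ * (cr z (deriv G 0) / cr (G 0) w)‖ = sdn x n z * ‖ζ‖ := by
      rw [norm_mul, hmod, mul_comm]
    have h6 : φ ζ = (φ ζ - ζ * (cr z (deriv G 0) / cr (G 0) w)) +
        ζ * (cr z (deriv G 0) / cr (G 0) w) := by ring
    rw [h6]
    refine (norm_add_le _ _).trans ?_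
    rw [h5]
    linarith
  obtain ⟨δ, hδ, hball⟩ := Metric.eventually_nhds_iff.1 hev
  have hb : ∀ ζ : ℂ, ‖ζ‖ < δ → ‖φ ζ‖ ≤ μ * ‖ζ‖ ∧ cr (G ζ) w ≠ 0 := fun ζ hζ =>
    hball (by rwa [dist_zero_right])
  refine ⟨δ, hδ, fun ζ hζ => ?_⟩
  have hit : ∀ k : ℕ, ∃ a : ℂ, a ≠ 0 ∧ ((hF x)^[n])^[k] (h ζ) = a • h (φ^[k] ζ) := by
    intro k
    induction k with
    | zero => exact ⟨1, one_ne_zero, by rw [one_smul]; rfl⟩
    | succ k ih =>
      obtain ⟨a, ha, hk⟩ := ih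
      have h1 := (iter_small hμ0 hμ2 (fun ζ hζ => (hb ζ hζ).1) hζ k).2
      have h2 := (hb _ h1).2
      refine ⟨a ^ (d ^ n) * (cr (G (φ^[k] ζ)) w / cr z w),
        mul_ne_zero (pow_ne_zero _ ha) (div_ne_zero h2 hΔ), ?_⟩
      rw [Function.iterate_succ_apply', hk, hF_iter_smul, Function.iterate_succ_apply', mul_smul]
      congr 1
      have h3 := coords hΔ h2
      have h4 : (hF x)^[n] (h (φ^[k] ζ)) = G (φ^[k] ζ) := by rw [hG]
      rw [h4]
      have h5 : h (φ (φ^[k] ζ)) =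
          z + (cr z (G (φ^[k] ζ)) / cr (G (φ^[k] ζ)) w) • w := by
        rw [hh, hφ]
      rw [h5]
      exact h3
  have hlim : Tendsto (fun k : ℕ => φ^[k] ζ) atTop (𝓝 0) := by
    have h1 : Tendsto (fun k : ℕ => μ ^ k * ‖ζ‖) atTop (𝓝 0) := by
      have := (tendsto_pow_atTop_nhds_zero_of_lt_one hμ0 hμ2).mul_const ‖ζ‖
      rwa [zero_mul] at this
    exact squeeze_zero_norm
      (fun k => (iter_small hμ0 hμ2 (fun ζ hζ => (hb ζ hζ).1) hζ k).1) h1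
  have hcont : ContinuousAt (fun η : ℂ => cho (h η) z) 0 := by
    unfold cho N2
    have hc : ContinuousAt h 0 := hhd.continuousAt
    have hc1 : ContinuousAt (fun η => (h η).1) 0 := hc.fst
    have hc2 : ContinuousAt (fun η => (h η).2) 0 := hc.snd
    have hN : Real.sqrt ((‖(h 0).1‖ ^ 2 + ‖(h 0).2‖ ^ 2) * (‖z.1‖ ^ 2 + ‖z.2‖ ^ 2)) ≠ 0 := by
      rw [hh0]
      have := N2_pos hz
      unfold N2 at this
      positivity
    refine ContinuousAt.div ?_ ?_ hN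
    · unfold cr
      exact ((hc1.mul continuousAt_const).sub (hc2.mul continuousAt_const)).norm
    · exact (((hc1.norm.pow 2).add (hc2.norm.pow 2)).mul continuousAt_const).sqrt
  have hc0 : cho (h 0) z = 0 := by
    rw [hh0]
    unfold cho
    rw [cr_self, norm_zero, zero_div]
  have h7 := hcont.tendsto.comp hlim
  rw [hc0] at h7
  refine h7.congr fun k => ?_
  obtain ⟨a, ha, hk⟩ := hit k
  have h8 : (hF x)^[n * k] (z + ζ • w) = a • h (φ^[k] ζ) := by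
    rw [Function.iterate_mul, ← hk, hh]
  have h9 := Pool.Agent.H747.HY211.CHO.cho_smul (h (φ^[k] ζ)) z a 1 ha one_ne_zero
  rw [one_smul] at h9
  rw [h8, h9]
  rfl

/-- a direction of attraction outside of the cycle -/
theorem exists_q {d : ℕ} {x : CV d} (hx : ND x) {z : ℂ × ℂ} (hz : z ≠ 0) {δ : ℝ} (hδ : 0 < δ) :
    ∃ ζ : ℂ, ‖ζ‖ < δ ∧ ∀ i : ℕ, cr ((hF x)^[i] z) (z + ζ • nv z) ≠ 0 := by
  have hΔ := cr_nv_ne hz
  set B : Set ℂ := ⋃ i : ℕ, {ζ : ℂ | cr ((hF x)^[i] z) (z + ζ • nv z) = 0} with hB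
  have hBc : B.Countable := by
    refine Set.countable_iUnion fun i => Set.Subsingleton.countable ?_
    intro ζ hζ ζ' hζ'
    have e : ∀ ζ : ℂ, cr ((hF x)^[i] z) (z + ζ • nv z) =
        cr ((hF x)^[i] z) z + ζ * cr ((hF x)^[i] z) (nv z) := by
      intro ζ
      unfold cr
      simp only [Prod.smul_fst, Prod.smul_snd, Prod.fst_add, Prod.snd_add, smul_eq_mul]
      ring
    have h1 : cr ((hF x)^[i] z) z + ζ * cr ((hF x)^[i] z) (nv z) = 0 := by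
      rw [← e]
      exact hζ
    have h2 : cr ((hF x)^[i] z) z + ζ' * cr ((hF x)^[i] z) (nv z) = 0 := by
      rw [← e]
      exact hζ'
    have h3 : cr ((hF x)^[i] z) (nv z) ≠ 0 := by
      intro h3
      rw [h3, mul_zero, add_zero] at h1
      have h4 := hx.iter_ne i hz
      have h5 : cr z (nv z) = 0 := by
        refine cr_trans h4 ?_ h3
        rw [cr_comm, h1, neg_zero]
      exact hΔ h5
    have h4 : (ζ - ζ') * cr ((hF x)^[i] z) (nv z) = 0 := by linear_combination h1 - h2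
    exact sub_eq_zero.1 ((mul_eq_zero.1 h4).resolve_right h3)
  obtain ⟨ζ, hζ1, hζ2⟩ := (hBc.dense_compl ℝ).inter_open_nonempty (ball (0 : ℂ) δ) isOpen_ball
    ⟨0, mem_ball_self hδ⟩
  refine ⟨ζ, by simpa using hζ1, fun i hi => hζ2 (Set.mem_iUnion.2 ⟨i, hi⟩)⟩

/-! ### Invariance -/

section conj

variable {d : ℕ} {a b c e : ℂ} {x y : CV d}

theorem rho_par {p q : ℂ × ℂ} (hp : p ≠ 0) (hq : q ≠ 0) (h : cr p q = 0) :
    rho a b c e p = rho a b c e q := by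
  obtain ⟨t, ht, rfl⟩ := (cr_eq_zero_iff hp hq).1 h
  have e1 : L a b c e (t • q) = t • L a b c e q := by
    refine Prod.ext ?_ ?_
    · change a * (t * q.1) + b * (t * q.2) = t * (a * q.1 + b * q.2)
      ring
    · change c * (t * q.1) + e * (t * q.2) = t * (c * q.1 + e * q.2)
      ring
  unfold rho
  rw [e1, Pool.Agent.H747.HY211.CHO.N2_smul, Pool.Agent.H747.HY211.CHO.N2_smul]
  have := norm_pos_iff.2 ht
  have h1 := (N2_pos hq).ne'
  field_simp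

theorem cyc_L (hd : 2 ≤ d) (hx : ND x) (hdet : a * e - b * c = 1) (hR : Rel a b c e x y) {n : ℕ}
    {z : ℂ × ℂ} (hz : z ≠ 0) (hcyc : cr ((hF x)^[n] z) z = 0) (hs : sdn x n z < 1) :
    cr ((hF y)^[n] (L a b c e z)) (L a b c e z) = 0 ∧ sdn y n (L a b c e z) < 1 := by
  refine ⟨by rw [hF_iter_L hdet hR, cr_L hdet, hcyc], ?_⟩
  rw [sdn_L hd hx hdet hR hz, ← rho_par (hx.iter_ne n hz) hz hcyc,
    div_self (rho_pos hdet (hx.iter_ne n hz)).ne', mul_one]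
  exact hs

theorem lim_L (hx : ND x) (hdet : a * e - b * c = 1) (hR : Rel a b c e x y) {n : ℕ}
    {z q : ℂ × ℂ} (hz : z ≠ 0) (hq : q ≠ 0)
    (h : Tendsto (fun k : ℕ => cho ((hF x)^[n * k] q) z) atTop (𝓝 0)) :
    Tendsto (fun k : ℕ => cho ((hF y)^[n * k] (L a b c e q)) (L a b c e z)) atTop (𝓝 0) := by
  obtain ⟨K, hK, hK'⟩ := cho_bd (a := a) (b := b) (c := c) (e := e) hdet
  have h1 := h.const_mul K
  rw [mul_zero] at h1
  refine squeeze_zero (fun k => Pool.Agent.H747.HY211.CHO.cho_nonneg _ _) (fun k => ?_) h1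
  rw [hF_iter_L hdet hR]
  exact (hK' _ _ (hx.iter_ne _ hq) hz).1

theorem AT_L (hd : 2 ≤ d) (hx : ND x) (hdet : a * e - b * c = 1) (hR : Rel a b c e x y)
    {q : ℂ × ℂ} (hq : q ≠ 0) (h : AT x q) : AT y (L a b c e q) := by
  obtain ⟨n, hn, z, hz, hcyc, hs, ht⟩ := h
  obtain ⟨h1, h2⟩ := cyc_L hd hx hdet hR hz hcyc hs
  exact ⟨n, hn, L a b c e z, L_ne hdet hz, h1, h2, lim_L hx hdet hR hz hq ht⟩

theorem CEp_L (hd : 2 ≤ d) (hx : ND x) (hdet : a * e - b * c = 1) (hR : Rel a b c e x y)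
    {p : ℂ × ℂ} (hp : p ≠ 0) (h : CEp x p) : CEp y (L a b c e p) := by
  obtain ⟨C, hC, μ, hμ, hg⟩ := h
  obtain ⟨K, hK, hK'⟩ := rho_bd (a := a) (b := b) (c := c) (e := e) hdet
  have hK0 : 0 < K := by linarith
  have hFp : hF x p ≠ 0 := fun h => hp (hx p h)
  refine ⟨C * (rho a b c e (hF x p) / K), by have := rho_pos hdet hFp; positivity, μ, hμ,
    fun n => ?_⟩
  rw [hF_L hdet hR, sdn_L hd hx hdet hR hFp]
  have h1 := rho_pos hdet hFp
  have hn : (hF x)^[n] (hF x p) ≠ 0 := hx.iter_ne n hFp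
  have h2 := rho_pos hdet hn
  have h3 : rho a b c e (hF x p) / K ≤ rho a b c e (hF x p) / rho a b c e ((hF x)^[n] (hF x p)) :=
    div_le_div_of_nonneg_left h1.le h2 (hK' _ hn).1
  calc C * (rho a b c e (hF x p) / K) * μ ^ n = (C * μ ^ n) * (rho a b c e (hF x p) / K) := by ring
    _ ≤ sdn x n (hF x p) * (rho a b c e (hF x p) / rho a b c e ((hF x)^[n] (hF x p))) :=
      mul_le_mul (hg n) h3 (by positivity) (le_trans (by positivity) (hg n))

end conj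

/-- **Normalisation.** -/
theorem t_ATM (hQ : S_ATQ) : S_ATM := by
  intro d x hd hx hcrit hex ε hε
  have hd1 : 1 ≤ d := by omega
  obtain ⟨c₀, hc₀, n, hn, z, hz, hcyc, hs, -⟩ := hex
  obtain ⟨δ₀, hδ₀, hbas⟩ := basin hd hx hz hcyc hs
  obtain ⟨ζ, hζ, hav⟩ := exists_q hx hz hδ₀
  have hlim := hbas ζ hζ
  obtain ⟨q, hqd⟩ : ∃ q, q = z + ζ • nv z := ⟨_, rfl⟩
  rw [← hqd] at hlim hav
  have hq : q ≠ 0 := by
    rintro rfl
    apply hav 0
    simp [cr]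
  obtain ⟨s, t, hst⟩ : ∃ s t : ℂ, s * q.1 + t * q.2 = 1 := by
    by_cases h1 : q.1 = 0
    · have h2 : q.2 ≠ 0 := fun h2 => hq (Prod.ext h1 h2)
      exact ⟨0, q.2⁻¹, by rw [zero_mul, zero_add, inv_mul_cancel₀ h2]⟩
    · exact ⟨q.1⁻¹, 0, by rw [zero_mul, add_zero, inv_mul_cancel₀ h1]⟩
  obtain ⟨cj, hcd, -, -, -, hcj⟩ := CJ d
  have hdet : s * q.1 - t * (-q.2) = 1 := by linear_combination hst
  set m : (ℂ × ℂ) × (ℂ × ℂ) := ((s, t), (-q.2, q.1)) with hm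
  set mi : (ℂ × ℂ) × (ℂ × ℂ) := ((q.1, -t), (q.2, s)) with hmi
  have hdet' : q.1 * s - (-t) * q.2 = 1 := by linear_combination hst
  have hR1 : Rel s t (-q.2) q.1 x (cj m x) := fun p => by
    rw [hcj m x p]
  have hND1 : ND (cj m x) := nd_of_rel hdet hR1 hx
  have hR2 : ∀ y : CV d, Rel q.1 (-t) q.2 s y (cj mi y) := fun y p => by
    rw [hcj mi y p]
  have hback : cj mi (cj m x) = x := by
    apply hF_inj
    intro p
    rw [hR2 (cj m x) p]
    have e1 := rel_apply hdet hR1 p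
    have e2 : ((s * p.1 - -t * p.2, q.1 * p.2 - q.2 * p.1) : ℂ × ℂ) =
        (s * p.1 + t * p.2, -q.2 * p.1 + q.1 * p.2) := by
      refine Prod.ext ?_ ?_
      · change s * p.1 - -t * p.2 = s * p.1 + t * p.2
        ring
      · change q.1 * p.2 - q.2 * p.1 = -q.2 * p.1 + q.1 * p.2
        ring
    rw [e2, e1]
    refine Prod.ext ?_ ?_
    · change q.1 * (s * (hF x p).1 + t * (hF x p).2) +
        -t * (-q.2 * (hF x p).1 + q.1 * (hF x p).2) = (hF x p).1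
      linear_combination (hF x p).1 * hst
    · change q.2 * (s * (hF x p).1 + t * (hF x p).2) +
        s * (-q.2 * (hF x p).1 + q.1 * (hF x p).2) = (hF x p).2
      linear_combination (hF x p).2 * hst
  -- the hypotheses for the conjugate
  have hLq : L s t (-q.2) q.1 q = (1, 0) := by
    refine Prod.ext ?_ ?_
    · exact hst
    · change -q.2 * q.1 + q.1 * q.2 = 0
      ring
  have hATN : ATN (cj m x) := by
    obtain ⟨h1, h2⟩ := cyc_L hd hx hdet hR1 hz hcyc hs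
    refine ⟨n, hn, L s t (-q.2) q.1 z, L_ne hdet hz, h1, h2, fun i => ?_, ?_⟩
    · rw [hF_iter_L hdet hR1]
      change -q.2 * ((hF x)^[i] z).1 + q.1 * ((hF x)^[i] z).2 ≠ 0
      intro h3
      apply hav i
      unfold cr
      linear_combination -h3
    · have h3 := lim_L hx hdet hR1 hz hq hlim
      rwa [hLq] at h3
  have hcrit' : ∀ c : ℂ × ℂ, c ≠ 0 → wr (cj m x) c = 0 → AT (cj m x) c ∨ CEp (cj m x) c := by
    intro c hc hw
    obtain ⟨p, hp, rfl⟩ := L_surj hdet hc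
    rw [wr_L hd hdet hR1] at hw
    rcases hcrit p hp hw with h | h
    · exact Or.inl (AT_L hd hx hdet hR1 hp h)
    · exact Or.inr (CEp_L hd hx hdet hR1 hp h)
  have hcont : Continuous (fun y : CV d => cj mi y) := by
    have h1 := hcd.continuous
    exact h1.comp (continuous_const.prodMk continuous_id)
  obtain ⟨δ, hδ, hδε⟩ := Metric.continuous_iff.1 hcont (cj m x) ε hε
  obtain ⟨x₁, hx₁, hND, hHyp⟩ := hQ d (cj m x) hd hND1 hATN hcrit' δ hδ
  have hND2 : ND (cj mi x₁) := nd_of_rel hdet' (hR2 x₁) hND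
  refine ⟨cj mi x₁, ?_, hND2, ?_⟩
  · have := hδε x₁ (by rw [dist_eq_norm]; exact hx₁)
    rw [hback, dist_eq_norm] at this
    exact this
  · obtain ⟨h', hh', -⟩ := MOB SP q.1 (-t) q.2 s (by rw [hdet']; exact one_ne_zero)
    exact hyp h' (semi SP hd1 hND hND2 hdet' (hR2 x₁) h' hh') hHyp

end Pool.Agent.H376.HY211
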